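import Pool.Agent.P8H73.PZ.Names

/-!
# Zeta values and incomplete zeta values over fields generated by values of E-functions
-/

set_option autoImplicit false

open MeasureTheory Set

namespace Pool.Agent.P8H73.PZ

open Pool.Agent.R352.T
open Pool.Agent.R352.E (EE EE_zero_left zt)
open Pool.Agent.R352.Q (As Ls const_As deriv_As Zk Rk)
open Pool.Agent.P8H10.MF

variable {F : Subfield ℝ}

section

open PowerSeries

/-- the coefficients of the logarithmic derivative -/
lemma coeff_L_mem {A L : ℝ⟦X⟧} (hAL : derivative ℝ A = A * L) {T : Set ℝ} (J : ℕ) (hne : coeff 0 A ≠ 0)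
    (hA : ∀ j ≤ J, coeff j A ∈ clF F T) : ∀ l < J, coeff l L ∈ clF F T := by
  intro l
  induction l using Nat.strong_induction_on with
  | _ l ih =>
    intro hl
    have h2 := congrArg (coeff l) hAL
    rw [coeff_derivative, coeff_mul, Finset.Nat.sum_antidiagonal_eq_sum_range_succ
      (fun i j => coeff i A * coeff j L), Finset.sum_range_succ'] at h2
    have h3 : coeff l L = (coeff (l + 1) A * ((l : ℝ) + 1) - ∑ i ∈ Finset.range l, coeff (i + 1) A *
        coeff (l - (i + 1)) L) / coeff 0 A := by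
      rw [eq_div_iff hne, h2]
      simp only [Nat.sub_zero]
      ring
    rw [h3]
    refine (clF F T).div_mem ((clF F T).sub_mem ((clF F T).mul_mem (hA _ (by omega)) ?_)
      ((clF F T).sum_mem fun i hi => ?_)) (hA 0 (Nat.zero_le _))
    · exact_mod_cast natCast_mem (clF F T) (l + 1)
    · have hi' := Finset.mem_range.1 hi
      exact (clF F T).mul_mem (hA _ (by omega)) (ih _ (by omega) (by omega))

lemma mem_top {x : ℚ} (hx : 0 < x) {T : Set ℝ} (he : Real.exp 1 ∈ clF F T) {k : ℕ} (hk : 2 ≤ k)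
    (hE : ∀ l, 1 ≤ l → l < k → EE l x ∈ clF F T) (hZ : Zk k x ∈ clF F T) : EE k x ∈ clF F T := by
  have hx' : (0 : ℝ) < x := by exact_mod_cast hx
  have ha : 1 - Real.exp (-(x : ℝ)) ∈ clF F T := by
    refine (clF F T).sub_mem (clF F T).one_mem ?_
    have := exp_rat_mem he (-x)
    push_cast at this
    exact this
  have ha0 := (Pool.Agent.R352.Q.const_pos hx').ne'
  have hA0 : coeff 0 (As x) = 1 - Real.exp (-(x : ℝ)) := by rw [coeff_zero_eq_constantCoeff_apply, const_As]
  have hA : ∀ j ≤ k - 1, coeff j (As x) ∈ clF F T := by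
    intro j hj
    rcases Nat.eq_zero_or_pos j with rfl | hj0
    · rw [hA0]
      exact ha
    · rw [As, coeff_mk]
      exact (clF F T).mul_mem (neg_pow_mem T _) (hE j hj0 (by omega))
  have hL := coeff_L_mem (deriv_As hx') (k - 1) (by rw [hA0]; exact ha0) hA
  have hL' : ∀ j < k, coeff j (Ls x) ∈ clF F T := by
    intro j hj
    rcases Nat.lt_or_ge j (k - 1) with h | h
    · exact hL j h
    · have hjk : j = k - 1 := by omega
      rw [Zk] at hZ
      have h4 : coeff (k - 1) (Ls x) = ((-1) ^ k * ((1 - Real.exp (-(x : ℝ))) ^ k * coeff (k - 1) (Ls x))) /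
          ((-1) ^ k * (1 - Real.exp (-(x : ℝ))) ^ k) := by
        have : ((-1 : ℝ)) ^ k ≠ 0 := pow_ne_zero _ (by norm_num)
        field_simp
      rw [hjk, h4]
      exact (clF F T).div_mem hZ ((clF F T).mul_mem (neg_pow_mem T _) ((clF F T).pow_mem ha _))
  have h2 := coeff_mem (deriv_As hx') k (by rw [hA0]; exact ha) hL' k le_rfl
  rw [As, coeff_mk] at h2
  have h3 : EE k x = (-1) ^ k * ((-1) ^ k * EE k x) := by
    rw [← mul_assoc, ← mul_pow]; norm_num
  rw [h3]
  exact (clF F T).mul_mem (neg_pow_mem T k) h2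

end

/-- the spanning family -/
noncomputable def V (k l : ℕ) (a x : ℚ) : ℝ := if a = 0 ∧ l + 1 = k then Zk k x else EA a (l + 1) x

theorem AI_V (hF : Pool.Agent.Q163.LE.SimLiouville F) {k : ℕ} (hk : 2 ≤ k) (J : ℕ) {ι : Type} [Fintype ι]
    (a x : ι → ℚ) (hinj : ∀ i i', a i = a i' → x i = x i' → i = i')
    (ha0 : ∀ i, 0 ≤ a i) (ha1 : ∀ i, a i < 1) (hpos : ∀ i, 0 < x i) :
    AlgebraicIndependent F (fun o : Option (Fin J × ι) => o.elim (Real.exp 1) (fun p => V k p.1 (a p.2) (x p.2))) := by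
  refine indep_of_span (AI_E hF J a x hinj ha0 ha1 hpos) (fun o => ?_) le_rfl
  obtain ⟨T, hT⟩ : ∃ T : Set ℝ, T = range (fun o : Option (Fin J × ι) =>
    o.elim (Real.exp 1) (fun p => V k p.1 (a p.2) (x p.2))) := ⟨_, rfl⟩
  rw [← hT]
  have he : Real.exp 1 ∈ clF F T := by
    rw [hT]
    exact subset_clF _ ⟨none, rfl⟩
  have hV : ∀ (l : ℕ) (i : ι), l < J → V k l (a i) (x i) ∈ clF F T := by
    intro l i hl
    rw [hT]
    exact subset_clF _ ⟨some (⟨l, hl⟩, i), rfl⟩
  cases o with
  | none => exact he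
  | some p =>
    obtain ⟨l, i⟩ := p
    show EA (a i) (l + 1) (x i) ∈ clF F T
    by_cases h : a i = 0 ∧ (l : ℕ) + 1 = k
    · have h1 := hV l i l.2
      rw [V, if_pos h] at h1
      rw [h.1, Rat.cast_zero, EA_EE, h.2]
      refine mem_top (hpos i) he hk (fun j hj hjk => ?_) h1
      have h2 := hV (j - 1) i (by have := l.2; omega)
      rw [V, if_neg (by rintro ⟨-, h3⟩; omega), h.1, Rat.cast_zero, EA_EE, Nat.sub_add_cancel hj] at h2
      exact h2
    · have h1 := hV l i l.2
      rw [V, if_neg h] at h1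
      exact h1

/-- the indices of the values of E-functions in the base field -/
abbrev Bs (k : ℕ) : Type :=
  {p : ℕ × ℚ × ℚ // (0 ≤ p.2.1 ∧ p.2.1 < 1 ∧ 0 < p.2.2) ∧ ¬(p.2.1 = 0 ∧ p.1 + 1 = k)}

/-- the generators of the base field -/
noncomputable def bs (k : ℕ) (o : Option (Bs k)) : ℝ := o.elim (Real.exp 1) fun p => EA p.1.2.1 (p.1.1 + 1) p.1.2.2

/-- positive rational numbers -/
abbrev Qp : Type := {x : ℚ // 0 < x}

theorem AI_sum (hF : Pool.Agent.Q163.LE.SimLiouville F) {k : ℕ} (hk : 2 ≤ k) :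
    AlgebraicIndependent F (Sum.elim (fun x : Qp => Zk k x.1) (bs k)) := by
  classical
  refine algebraicIndependent_of_finite_type fun t ht => ?_
  -- the triple of an index
  let tr : Qp ⊕ Option (Bs k) → Option (ℕ × ℚ × ℚ) := fun s =>
    match s with
    | .inl x => some (k - 1, 0, x.1)
    | .inr none => none
    | .inr (some p) => some p.1
  have htr : Function.Injective tr := by
    rintro (x | _ | p) (y | _ | q) h <;> simp only [tr, Option.some.injEq, Prod.mk.injEq, reduceCtorEq] at h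
    · have : x = y := Subtype.ext h.2.2
      rw [this]
    · exfalso
      apply q.2.2
      rw [← h]
      exact ⟨rfl, by show k - 1 + 1 = k; omega⟩
    · rfl
    · exfalso
      apply p.2.2
      rw [h]
      exact ⟨rfl, by show k - 1 + 1 = k; omega⟩
    · rw [Subtype.ext h]
  have hok : ∀ s q, tr s = some q → 0 ≤ q.2.1 ∧ q.2.1 < 1 ∧ 0 < q.2.2 := by
    rintro (x | _ | p) q h <;> simp only [tr, Option.some.injEq, reduceCtorEq] at h
    · subst h
      exact ⟨le_rfl, one_pos, x.2⟩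
    · subst h
      exact p.2.1
  have hval : ∀ s, Sum.elim (fun x : Qp => Zk k x.1) (bs k) s =
      (tr s).elim (Real.exp 1) fun q => V k q.1 q.2.1 q.2.2 := by
    rintro (x | _ | p)
    · show Zk k x.1 = V k (k - 1) 0 x.1
      rw [V, if_pos ⟨rfl, by omega⟩]
    · rfl
    · show EA p.1.2.1 (p.1.1 + 1) p.1.2.2 = V k p.1.1 p.1.2.1 p.1.2.2
      rw [V, if_neg p.2.2]
  let s : Finset (ℕ × ℚ × ℚ) := ht.toFinset.biUnion fun o => (tr o).elim ∅ (fun q => {q})
  have hs : ∀ o ∈ t, ∀ q, tr o = some q → q ∈ s := by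
    intro o ho q hq
    refine Finset.mem_biUnion.2 ⟨o, ht.mem_toFinset.2 ho, ?_⟩
    rw [hq]
    simp
  let J : ℕ := s.sup Prod.fst + 1
  let Y : Finset (ℚ × ℚ) := (s.image Prod.snd).filter (fun y => 0 ≤ y.1 ∧ y.1 < 1 ∧ 0 < y.2)
  have hYm : ∀ y : Y, 0 ≤ (y : ℚ × ℚ).1 ∧ (y : ℚ × ℚ).1 < 1 ∧ 0 < (y : ℚ × ℚ).2 := fun y => (Finset.mem_filter.1 y.2).2
  have h := AI_V hF hk J (ι := Y) (fun i => i.1.1) (fun i => i.1.2)
    (fun i j h1 h2 => Subtype.ext (Prod.ext h1 h2)) (fun i => (hYm i).1) (fun i => (hYm i).2.1) (fun i => (hYm i).2.2)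
  have hJ : ∀ o ∈ t, ∀ q, tr o = some q → q.1 < J := fun o ho q hq =>
    Nat.lt_succ_of_le (Finset.le_sup (f := Prod.fst) (hs o ho q hq))
  have hY : ∀ o ∈ t, ∀ q, tr o = some q → q.2 ∈ Y := fun o ho q hq =>
    Finset.mem_filter.2 ⟨Finset.mem_image_of_mem _ (hs o ho q hq), hok o q hq⟩
  let emb : Option (Fin J × Y) → Option (ℕ × ℚ × ℚ) := Option.map fun p => ((p.1 : ℕ), p.2.1)
  have hemb : Function.Injective emb := by
    refine Option.map_injective ?_
    rintro ⟨l, y⟩ ⟨l', y'⟩ h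
    simp only [Prod.mk.injEq] at h
    exact Prod.ext (Fin.ext h.1) (Subtype.ext (by simpa using h.2))
  have hex : ∀ o : t, ∃ u : Option (Fin J × Y), emb u = tr o.1 := by
    intro o
    rcases hto : tr o.1 with _ | q
    · exact ⟨none, rfl⟩
    · refine ⟨some (⟨q.1, hJ o.1 o.2 q hto⟩, ⟨q.2, hY o.1 o.2 q hto⟩), rfl⟩
  choose f hf using hex
  have hfi : Function.Injective f := by
    intro o o' hoo
    apply Subtype.ext
    apply htr
    rw [← hf o, ← hf o', hoo]
  have h2 := h.comp f hfi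
  convert h2 using 1
  funext o
  rw [hval o.1, ← hf o]
  show _ = (f o).elim (Real.exp 1) fun p => V k p.1 p.2.1.1 p.2.1.2
  cases f o with
  | none => rfl
  | some p => rfl

/-- the base field -/
noncomputable def Kf (F : Subfield ℝ) (k : ℕ) : Subfield ℝ := (IntermediateField.adjoin F (range (bs k))).toSubfield

/-- **Algebraic independence** of the incomplete zeta values over the base field -/
theorem AI_K (hF : Pool.Agent.Q163.LE.SimLiouville F) {k : ℕ} (hk : 2 ≤ k) :
    AlgebraicIndependent (Kf F k) (fun x : Qp => Zk k x.1) := by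
  have h := (AlgebraicIndependent.sumElim_iff.1 (AI_sum hF hk)).2
  have h2 := (IntermediateField.algebraicIndependent_adjoin_iff (F := F) (s := range (bs k))).2 h
  exact h2

section

variable {K : Subfield ℝ}

/-- counting -/
lemma count0 {ι κ : Type*} [Fintype ι] [Fintype κ] {x : ι → ℝ} (hx : AlgebraicIndependent K x) {y : κ → ℝ}
    (S : Finset κ) (hS : ∀ k ∈ S, y k ∈ clF K ∅) (h : ∀ i, x i ∈ clF K (range y)) :
    Fintype.card ι + S.card ≤ Fintype.card κ := by
  classical
  have h1 : clF K (range y) ≤ clF K (y '' (Sᶜ : Finset κ)) := by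
    refine clF_le ?_
    rintro z ⟨k, rfl⟩
    by_cases hk : k ∈ S
    · exact clF_mono (empty_subset _) (hS k hk)
    · refine subset_clF _ ⟨k, ?_, rfl⟩
      simpa using hk
  have h2 := card_le hx (fun i => h1 (h i))
  have h3 : (y '' (Sᶜ : Finset κ) : Set ℝ).encard ≤ (((Sᶜ : Finset κ).card : ℕ) : ℕ∞) := by
    have e : (((Sᶜ : Finset κ) : Set κ)).encard = ((Sᶜ : Finset κ).card : ℕ∞) := encard_coe_eq_coe_finsetCard _
    rw [← e]
    exact encard_image_le _ _
  have h4 : (Fintype.card ι : ℕ∞) ≤ (((Sᶜ : Finset κ).card : ℕ) : ℕ∞) := h2.trans ((Matroid.eRk_le_encard _ _).trans h3)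
  have h5 : Fintype.card ι ≤ (Sᶜ : Finset κ).card := by exact_mod_cast h4
  rw [Finset.card_compl] at h5
  have h6 := Finset.card_le_univ S
  omega

lemma mem_empty {z : ℝ} (h : IsAlgebraic K z) : z ∈ clF K ∅ :=
  mem_cl_iff.2 (h.extendScalars (S := Algebra.adjoin K (∅ : Set ℝ)) (algebraMap K (Algebra.adjoin K (∅ : Set ℝ))).injective)

/-- counting for `v - z i` -/
theorem countK {ι : Type} {z : ι → ℝ} (hz : AlgebraicIndependent K z) (v : ℝ) {r : ℕ} (y : Fin r → ℝ)
    (hv : v ∈ clF K (range y)) (t : Finset (Fin r ⊕ ι))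
    (ht : ∀ i ∈ t, Sum.elim y (fun i => v - z i) i ∈ clF K ∅) : t.card ≤ r := by
  classical
  obtain ⟨S, hSm, hSm'⟩ : ∃ S : Finset ι, (∀ n : ι, Sum.inr n ∈ t → n ∈ S) ∧
      ∀ n ∈ S, Sum.inr n ∈ t := by
    refine ⟨t.biUnion fun i => Sum.elim (fun _ => ∅) (fun p => {p}) i,
      fun p hp => Finset.mem_biUnion.2 ⟨_, hp, by simp⟩, fun p hp => ?_⟩
    obtain ⟨i, hi, hxi⟩ := Finset.mem_biUnion.1 hp
    rcases i with i | q
    · simp at hxi
    · simp only [Sum.elim_inr, Finset.mem_singleton] at hxi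
      subst hxi
      exact hi
  have hAI : AlgebraicIndependent K (fun i : S => z i.1) := hz.comp _ Subtype.val_injective
  obtain ⟨emb, hembd⟩ : ∃ emb : Fin r ⊕ S → Fin r ⊕ ι, emb = Sum.map id Subtype.val := ⟨_, rfl⟩
  have hemb : Function.Injective emb := by
    rw [hembd]
    exact Function.Injective.sumMap Function.injective_id Subtype.val_injective
  obtain ⟨S', hS'd⟩ : ∃ S' : Finset (Fin r ⊕ S), S' = t.preimage emb hemb.injOn := ⟨_, rfl⟩
  have hS'card : S'.card = t.card := by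
    rw [hS'd, Finset.card_preimage, Finset.filter_true_of_mem]
    intro i hi
    rw [hembd]
    rcases i with i | p
    · exact ⟨Sum.inl i, rfl⟩
    · exact ⟨Sum.inr ⟨p, hSm p hi⟩, rfl⟩
  obtain ⟨yy, hyy⟩ : ∃ yy : Fin r ⊕ S → ℝ, yy = fun k => Sum.elim y (fun i => v - z i) (emb k) := ⟨_, rfl⟩
  have hh : ∀ k ∈ S', yy k ∈ clF K ∅ := by
    intro k hk
    rw [hyy]
    rw [hS'd] at hk
    exact ht (emb k) (Finset.mem_preimage.1 hk)
  have h2 : ∀ i : S, z i.1 ∈ clF K (range yy) := by
    intro i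
    have e : z i.1 = v - (v - z i.1) := by ring
    rw [e]
    refine (clF K _).sub_mem (clF_mono ?_ hv) (subset_clF _ ⟨Sum.inr i, ?_⟩)
    · rintro _ ⟨j, rfl⟩
      exact ⟨Sum.inl j, by rw [hyy, hembd]; rfl⟩
    · rw [hyy, hembd]
      rfl
  have key := count0 hAI S' hh h2
  rw [Fintype.card_coe, Fintype.card_sum, Fintype.card_fin, Fintype.card_coe, hS'card] at key
  omega

theorem trdegK {ι : Type} {z : ι → ℝ} (hz : AlgebraicIndependent K z) (v : ℝ) {r : ℕ} (y : Fin r → ℝ)
    (hv : v ∈ clF K (range y)) (S : Finset ι) :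
    (S.card : Cardinal) ≤ Algebra.trdeg K (IntermediateField.adjoin K
      (range y ∪ (fun i => v - z i) '' (S : Set ι))) ∧
    (S.card : Cardinal) ≤ Algebra.trdeg K (IntermediateField.adjoin K ((fun i => v - z i) '' (S : Set ι))) + r := by
  have hAI : AlgebraicIndependent K (fun i : S => z i.1) := hz.comp _ Subtype.val_injective
  constructor
  · have h := trdeg_ge hAI (A := range y ∪ (fun i => v - z i) '' (S : Set ι)) (fun i => by
      have e : z i.1 = v - (v - z i.1) := by ring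
      rw [e]
      exact (clF K _).sub_mem (clF_mono subset_union_left hv) (subset_clF _ (Or.inr ⟨i.1, i.2, rfl⟩)))
    rwa [Fintype.card_coe] at h
  · have h := trdeg_ge_add hAI (A := (fun i => v - z i) '' (S : Set ι)) y (fun i => by
      have e : z i.1 = v - (v - z i.1) := by ring
      rw [e]
      exact (clF K _).sub_mem (clF_mono subset_union_right hv) (subset_clF _ (Or.inl ⟨i.1, i.2, rfl⟩)))
    rwa [Fintype.card_coe] at h

/-- if `v` is algebraic, the numbers `v - z i` are algebraically independent -/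
theorem AI_diff {ι : Type} {z : ι → ℝ} (hz : AlgebraicIndependent K z) {v : ℝ} (hv : IsAlgebraic K v) :
    AlgebraicIndependent K (fun i => v - z i) := by
  classical
  refine algebraicIndependent_of_finite_type fun t ht => ?_
  have := ht.fintype
  refine indep_of_span (hz.comp (fun i : t => i.1) Subtype.val_injective) (fun i => ?_) le_rfl
  show z i.1 ∈ _
  have e : z i.1 = v - (v - z i.1) := by ring
  rw [e]
  exact (clF K _).sub_mem (clF_mono (empty_subset _) (mem_empty hv)) (subset_clF _ ⟨i, rfl⟩)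

end

end Pool.Agent.P8H73.PZ
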