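import Pool.Agent.P8H10.ZLio
import Pool.Agent.N743.SS.MultiT

/-!
# The values of the functions `E_{a,l}` over simultaneously Liouville fields
-/

set_option autoImplicit false

open Set

namespace Pool.Agent.P8H73.PZ

open Pool.Agent.R352.T (EA common_den)
open Pool.Agent.N743.SS Pool.Agent.P8H10.MF

variable {F : Subfield ℝ}

lemma exp_rat_mem {T : Set ℝ} (he : Real.exp 1 ∈ clF F T) (r : ℚ) : Real.exp (r : ℝ) ∈ clF F T := by
  refine of_pow (n := r.den) r.den_ne_zero ?_
  rw [← Real.exp_nat_mul]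
  have h1 : (r.den : ℝ) * (r : ℝ) = (r.num : ℝ) := by
    have h : (r : ℝ) = (r.num : ℝ) / (r.den : ℝ) := by
      exact_mod_cast (Rat.num_div_den r).symm
    have h0 : (r.den : ℝ) ≠ 0 := by exact_mod_cast r.den_ne_zero
    rw [h]
    field_simp
  rw [h1, Pool.Agent.R352.E.exp_pow_int]
  exact (clF F T).zpow_mem he _

lemma rat_mem (T : Set ℝ) (r : ℚ) : (r : ℝ) ∈ clF F T := SubfieldClass.ratCast_mem _ r

/-- **Algebraic independence** of `e` and the numbers `E_{a,l+1}(x)` over `F` -/
theorem AI_E (hF : Pool.Agent.Q163.LE.SimLiouville F) (J : ℕ) {ι : Type} [Fintype ι] (a x : ι → ℚ)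
    (hinj : ∀ i i', a i = a i' → x i = x i' → i = i')
    (ha0 : ∀ i, 0 ≤ a i) (ha1 : ∀ i, a i < 1) (hpos : ∀ i, 0 < x i) :
    AlgebraicIndependent F (fun o : Option (Fin J × ι) =>
      o.elim (Real.exp 1) (fun p => EA (a p.2) (p.1 + 1) (x p.2))) := by
  classical
  set q : ℕ := (∏ i, (x i).den) * ∏ i, (a i).den with hqd
  have hq : 1 ≤ q := Nat.one_le_iff_ne_zero.2 (Nat.mul_ne_zero
    (Finset.prod_ne_zero_iff.2 fun i _ => (x i).den_ne_zero) (Finset.prod_ne_zero_iff.2 fun i _ => (a i).den_ne_zero))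
  have hq' : (q : ℝ) ≠ 0 := by positivity
  have hqp : (0 : ℝ) < q := by positivity
  have h1 := common_den x (fun i => (hpos i).le) q
    (fun i => (Finset.dvd_prod_of_mem (fun i => (x i).den) (Finset.mem_univ i)).trans (dvd_mul_right _ _)) hq
  have h2 := common_den a ha0 q
    (fun i => (Finset.dvd_prod_of_mem (fun i => (a i).den) (Finset.mem_univ i)).trans (dvd_mul_left _ _)) hq
  choose mm hmm using h1
  choose cc hcc using h2
  have hinj' : ∀ i i', mm i = mm i' → cc i = cc i' → i = i' := by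
    intro i j hij hij'
    apply hinj
    · have h1 := hcc i
      rw [hij', hcc j] at h1
      exact_mod_cast h1.symm
    · have h1 := hmm i
      rw [hij, hmm j] at h1
      exact_mod_cast h1.symm
  have hpos' : ∀ i, 1 ≤ mm i := by
    intro i
    by_contra h
    have h0 : mm i = 0 := by omega
    have h1 := hmm i
    rw [h0, Nat.cast_zero, zero_div] at h1
    have : (0 : ℝ) < x i := by exact_mod_cast hpos i
    linarith
  have hcq : ∀ i, cc i < q := by
    intro i
    have h1 := hcc i
    have h3 : ((a i : ℚ) : ℝ) < 1 := by exact_mod_cast ha1 i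
    rw [← h1, div_lt_one hqp] at h3
    exact_mod_cast h3
  let e : ι ≃ Fin (Fintype.card ι) := Fintype.equivFin ι
  have hm := measM_EA J (Fintype.card ι) (fun i => mm (e.symm i)) (fun i => cc (e.symm i))
    (fun i j h1 h2 => e.symm.injective (hinj' _ _ h1 h2)) (fun i => hpos' _) hq (fun i => hcq _)
  have h := AI_of_measM hF hm
  have h' := h.comp (Option.map (Prod.map id e)) (Option.map_injective (Function.injective_id.prodMap e.injective))
  refine indep_of_span h' (fun o => ?_) le_rfl
  cases o with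
  | none =>
    show Real.exp (-1 / q) ∈ _
    have := exp_rat_mem (F := F) (T := range (fun o : Option (Fin J × ι) =>
      o.elim (Real.exp 1) (fun p => EA (a p.2) (p.1 + 1) (x p.2)))) (subset_clF _ ⟨none, rfl⟩) (-1 / q)
    push_cast at this
    exact this
  | some p =>
    refine subset_clF _ ⟨some p, ?_⟩
    show EA (a p.2) (p.1 + 1) (x p.2) = EA ((cc (e.symm (e p.2)) : ℝ) / q) (p.1 + 1) ((mm (e.symm (e p.2)) : ℝ) / q)
    rw [Equiv.symm_apply_apply, hcc, hmm]

end Pool.Agent.P8H73.PZ
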