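import Pool.Agent.P8H73.PZ.Int
import Pool.Agent.P8H73.GT.Int
import Pool.Agent.R352.Q.Zk

/-!
# Hurwitz zeta values as integrals over octants
-/

set_option autoImplicit false

open MeasureTheory Set

namespace Pool.Agent.P8H73.PZ

open Pool.Agent.R352.T Pool.Agent.P8H73.GT
open Pool.Agent.R352.E (fr fl pd pdx psi mellin_rec PE dPE)
open Pool.Agent.R352.Q (om deriv_map' coeff_prod_root PE_mul PE_zero coeff_C_add)

/-- the weight -/
noncomputable def wa (a t : ℝ) : ℝ := t ^ (a - 1) * Real.exp (-t)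

lemma gl_wa (a : ℝ) (n : ℕ) (t : ℝ) : gl (wa a) n t = ((fa a n t : ℝ) : ℂ) := by
  rw [gl, wa, fa, fr]
  congr 1
  ring

lemma gl_int {a : ℝ} (ha : 0 < a) {s : Set ℝ} (hs : s ⊆ Ioi 0) (n : ℕ) : IntegrableOn (gl (wa a) n) s := by
  have h := ((fa_integrable ha n).mono_set hs).ofReal (𝕜 := ℂ)
  exact Integrable.congr h (Filter.Eventually.of_forall fun t => (gl_wa a n t).symm)

section

open PowerSeries

/-- the series of moments -/
noncomputable def Fsa (a : ℝ) (s : Set ℝ) : ℝ⟦X⟧ := PowerSeries.mk fun n => (∫ t in s, fa a n t) / n.factorial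

lemma map_Fsa (a : ℝ) (s : Set ℝ) : (PowerSeries.mk fun i => (∫ t in s, gl (wa a) i t) / (i.factorial : ℂ)) =
    PowerSeries.map (algebraMap ℝ ℂ) (Fsa a s) := by
  ext n
  rw [coeff_mk, coeff_map, Fsa, coeff_mk]
  have : ∫ t in s, gl (wa a) n t = ((∫ t in s, fa a n t : ℝ) : ℂ) := by
    rw [← integral_complex_ofReal]
    simp only [gl_wa]
  rw [this]
  simp

/-- the integral over a cube, roots of unity -/
lemma cube_root_a {a : ℝ} (ha : 0 < a) {k : ℕ} (hk : 0 < k) {s : Set ℝ} (hs : s ⊆ Ioi 0) {L : ℝ⟦X⟧}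
    (hL : derivative ℝ (Fsa a s) = Fsa a s * L) :
    ∫ t in Set.univ.pi (fun _ : Fin k => s), FW (wa a) k (fun j => om k ^ (j : ℕ)) t =
      ((k.factorial * (constantCoeff (Fsa a s) ^ k * coeff (k - 1) L) : ℝ) : ℂ) := by
  rw [FW_integral (gl_int ha hs), map_Fsa]
  have h1 : derivative ℂ (PowerSeries.map (algebraMap ℝ ℂ) (Fsa a s)) =
      PowerSeries.map (algebraMap ℝ ℂ) (Fsa a s) * PowerSeries.map (algebraMap ℝ ℂ) L := by
    rw [deriv_map', hL, map_mul]
  have h2 : IsPrimitiveRoot (om k) k := Complex.isPrimitiveRoot_exp k hk.ne'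
  rw [coeff_prod_root hk h2 h1, coeff_map]
  have h3 : constantCoeff (PowerSeries.map (algebraMap ℝ ℂ) (Fsa a s)) = ((constantCoeff (Fsa a s) : ℝ) : ℂ) := by
    rw [← coeff_zero_eq_constantCoeff_apply, coeff_map, coeff_zero_eq_constantCoeff_apply]
    rfl
  rw [h3]
  push_cast
  rfl

/-- the Hurwitz zeta values -/
noncomputable def zH (k : ℕ) (a : ℝ) : ℝ := ∑' n : ℕ, 1 / ((n : ℝ) + a) ^ k

lemma pdx_re {a : ℝ} (ha : 0 < a) (i : ℕ) : (pdx i (a : ℂ)).re = (-1) ^ i * (i + 1).factorial * zH (i + 2) a := by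
  have h2 : Summable (fun n : ℕ => 1 / ((n : ℝ) + a) ^ (i + 2)) := by
    rw [← summable_nat_add_iff 1]
    have h3 := (summable_nat_add_iff 1).2 (Real.summable_one_div_nat_pow.2 (show 1 < i + 2 by omega))
    refine Summable.of_nonneg_of_le (fun n => by positivity) (fun n => ?_) h3
    push_cast
    exact one_div_le_one_div_of_le (by positivity) (pow_le_pow_left₀ (by positivity) (by linarith) _)
  have h3 : zH (i + 2) a = 1 / a ^ (i + 2) + ∑' n : ℕ, 1 / (a + ((n : ℝ) + 1)) ^ (i + 2) := by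
    rw [zH, ← h2.sum_add_tsum_nat_add 1]
    simp only [Finset.sum_range_succ, Finset.sum_range_zero, zero_add, Nat.cast_zero]
    congr 1
    refine tsum_congr fun n => ?_
    push_cast
    ring_nf
  have h4 : pdx i (a : ℂ) = (((-1) ^ i * (i + 1).factorial * zH (i + 2) a : ℝ) : ℂ) := by
    rw [pdx, h3]
    push_cast
    rfl
  rw [h4, Complex.ofReal_re]

lemma ma_rec {a : ℝ} (ha : 0 < a) (n : ℕ) : ma a (n + 1) =
    ∑ i ∈ Finset.range (n + 1), (n.choose i : ℝ) * (ma a (n - i) * (pd i (a : ℂ)).re) := by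
  have h := congrArg Complex.re (mellin_rec n (a : ℂ) (by simpa using ha))
  rw [mellin_ma, Complex.ofReal_re, Complex.re_sum] at h
  rw [h]
  refine Finset.sum_congr rfl fun i _ => ?_
  rw [mellin_ma]
  have e : ((n.choose i : ℂ)) * (((ma a (n - i) : ℝ) : ℂ) * pd i (a : ℂ)) =
      (((n.choose i : ℝ) * ma a (n - i) : ℝ) : ℂ) * pd i (a : ℂ) := by
    push_cast
    ring
  rw [e, Complex.re_ofReal_mul]
  ring

/-- the logarithmic derivative of the series of the full moments -/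
noncomputable def PCa (a : ℝ) : ℝ⟦X⟧ := PowerSeries.mk fun n => (pd n (a : ℂ)).re / n.factorial

lemma deriv_full {a : ℝ} (ha : 0 < a) : derivative ℝ (Fsa a (Ioi 0)) = Fsa a (Ioi 0) * PCa a := by
  have e0 : ∀ n, ∫ t in Ioi (0 : ℝ), fa a n t = ma a n := fun n => rfl
  ext n
  rw [coeff_derivative, coeff_mul]
  simp only [Fsa, PCa, coeff_mk, e0]
  rw [ma_rec ha n, Finset.Nat.sum_antidiagonal_eq_sum_range_succ
      (fun i j => ma a i / i.factorial * ((pd j (a : ℂ)).re / j.factorial)),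
    ← Finset.sum_range_reflect, Finset.sum_div, Finset.sum_mul]
  refine Finset.sum_congr rfl fun i hi => ?_
  have hi' : i ≤ n := by have := Finset.mem_range.1 hi; omega
  have e1 : n + 1 - 1 - i = n - i := by omega
  have e2 : n - (n - i) = i := by omega
  rw [e1, e2, Nat.factorial_succ, Nat.choose_symm hi']
  have h3 : (n.choose i : ℝ) * i.factorial * (n - i).factorial = n.factorial := by
    exact_mod_cast Nat.choose_mul_factorial_mul_factorial hi'
  have h4 : (n.factorial : ℝ) ≠ 0 := by positivity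
  have h5 : (i.factorial : ℝ) ≠ 0 := by positivity
  have h6 : ((n - i).factorial : ℝ) ≠ 0 := by positivity
  have h7 : ((n : ℝ) + 1) ≠ 0 := by positivity
  push_cast
  field_simp
  linear_combination (ma a i * (pd (n - i) (a : ℂ)).re) * h3

lemma const_full {a : ℝ} (ha : 0 < a) : constantCoeff (Fsa a (Ioi 0)) = Real.Gamma a := by
  rw [← coeff_zero_eq_constantCoeff_apply, Fsa, coeff_mk, ← ma_zero ha, ma]
  simp

lemma coeff_PCa {a : ℝ} (ha : 0 < a) {k : ℕ} (hk : 2 ≤ k) : coeff (k - 1) (PCa a) = (-1) ^ k * zH k a := by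
  obtain ⟨i, rfl⟩ : ∃ i, k = i + 2 := ⟨k - 2, by omega⟩
  rw [PCa, coeff_mk]
  have h1 : i + 2 - 1 = i + 1 := by omega
  have h2 : pd (i + 1) (a : ℂ) = pdx i (a : ℂ) := rfl
  rw [h1, h2, pdx_re ha]
  have : ((i + 1).factorial : ℝ) ≠ 0 := by positivity
  field_simp
  ring

/-- the series of the functions `E_{a,l}` -/
noncomputable def Asa (a x : ℝ) : ℝ⟦X⟧ := PowerSeries.mk fun l => (-1) ^ l * (1 / a ^ (l + 1) - EA a (l + 1) x)

/-- its logarithmic derivative -/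
noncomputable def Lsa (a x : ℝ) : ℝ⟦X⟧ := derivative ℝ (Asa a x) * (Asa a x)⁻¹

lemma const_Asa (a x : ℝ) : constantCoeff (Asa a x) = 1 / a - EA a 1 x := by
  rw [← coeff_zero_eq_constantCoeff_apply, Asa, coeff_mk]
  simp

lemma gam_pos {a : ℝ} (ha : 0 < a) {x : ℝ} (hx : 0 < x) : 0 < gam a x := by
  rw [← gam_eq ha hx, ← integral_Ioc_eq_integral_Ioo, ← intervalIntegral.integral_of_le hx.le]
  refine intervalIntegral.intervalIntegral_pos_of_pos_on (fa_interval ha 0 hx.le) (fun t ht => ?_) hx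
  rw [fa0]
  have : 0 < t := ht.1
  positivity

lemma const_pos {a : ℝ} (ha : 0 < a) {x : ℝ} (hx : 0 < x) : 0 < 1 / a - EA a 1 x := by
  have h := gam_pos ha hx
  rw [gam] at h
  exact (mul_pos_iff_of_pos_left (Real.rpow_pos_of_pos hx a)).1 h

lemma deriv_Asa {a : ℝ} (ha : 0 < a) {x : ℝ} (hx : 0 < x) : derivative ℝ (Asa a x) = Asa a x * Lsa a x := by
  have h1 : constantCoeff (Asa a x) ≠ 0 := by rw [const_Asa]; exact (const_pos ha hx).ne'
  rw [Lsa]
  calc derivative ℝ (Asa a x) = derivative ℝ (Asa a x) * (Asa a x * (Asa a x)⁻¹) := by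
        rw [PowerSeries.mul_inv_cancel _ h1, mul_one]
    _ = _ := by ring

lemma int_Ioo_fa (a : ℝ) (n : ℕ) {x : ℝ} (hx : 0 < x) : ∫ t in Ioo 0 x, fa a n t = Ma a n x := by
  rw [Ma, intervalIntegral.integral_of_le hx.le, integral_Ioc_eq_integral_Ioo]

lemma PE_Fsa {a : ℝ} (ha : 0 < a) {x : ℝ} (hx : 0 < x) :
    PE (-Real.log x) * Fsa a (Ioo 0 x) = C (x ^ a) * Asa a x := by
  ext l
  have hRQ := RA_eq_QA ha l hx
  rw [RA, QA] at hRQ
  rw [coeff_mul, coeff_C_mul, Asa, coeff_mk]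
  simp only [PE, Fsa, coeff_mk, int_Ioo_fa a _ hx]
  rw [Finset.Nat.sum_antidiagonal_eq_sum_range_succ (fun i j => (-Real.log x) ^ i / i.factorial * (Ma a j x / j.factorial)),
    ← Finset.sum_range_reflect]
  have h4 : (l.factorial : ℝ) ≠ 0 := by positivity
  have e3 : x ^ a * ((-1) ^ l * (1 / a ^ (l + 1) - EA a (l + 1) x)) = (-1) ^ l / l.factorial *
      ∑ i ∈ Finset.range (l + 1), (l.choose i : ℝ) * (-1) ^ i * (Real.log x ^ (l - i) * Ma a i x) := by
    rw [← hRQ]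
    field_simp
  rw [e3, Finset.mul_sum]
  refine Finset.sum_congr rfl fun i hi => ?_
  have hi' : i ≤ l := by have := Finset.mem_range.1 hi; omega
  have e1 : l + 1 - 1 - i = l - i := by omega
  have e2 : l - (l - i) = i := by omega
  rw [e1, e2, neg_pow]
  have h3 : (l.choose i : ℝ) * i.factorial * (l - i).factorial = l.factorial := by
    exact_mod_cast Nat.choose_mul_factorial_mul_factorial hi'
  have h5 : (i.factorial : ℝ) ≠ 0 := by positivity
  have h6 : ((l - i).factorial : ℝ) ≠ 0 := by positivity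
  have h7 : (-1 : ℝ) ^ l = (-1) ^ (l - i) * (-1) ^ i := by
    rw [← pow_add]
    congr 1
    omega
  have h8 : ((-1 : ℝ) ^ i) * (-1) ^ i = 1 := by rw [← mul_pow]; norm_num
  rw [h7]
  field_simp
  linear_combination (-(Real.log x ^ (l - i) * Ma a i x)) * h3 - (Real.log x ^ (l - i) * Ma a i x *
    (l.choose i : ℝ) * i.factorial * (l - i).factorial) * h8

lemma Fsa_Ioo {a : ℝ} (ha : 0 < a) {x : ℝ} (hx : 0 < x) :
    Fsa a (Ioo 0 x) = PE (Real.log x) * (C (x ^ a) * Asa a x) := by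
  rw [← PE_Fsa ha hx, ← mul_assoc, PE_mul, add_neg_cancel, PE_zero, one_mul]

lemma deriv_Fsa_Ioo {a : ℝ} (ha : 0 < a) {x : ℝ} (hx : 0 < x) : derivative ℝ (Fsa a (Ioo 0 x)) =
    Fsa a (Ioo 0 x) * (C (Real.log x) + Lsa a x) := by
  rw [Fsa_Ioo ha hx, Derivation.leibniz, dPE, Derivation.leibniz, deriv_Asa ha hx, derivative_C]
  simp only [smul_eq_mul, PowerSeries.smul_eq_C_mul]
  ring

lemma const_Fsa_Ioo {a : ℝ} (ha : 0 < a) {x : ℝ} (hx : 0 < x) :
    constantCoeff (Fsa a (Ioo 0 x)) = gam a x := by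
  rw [← coeff_zero_eq_constantCoeff_apply, Fsa, coeff_mk, gam_eq ha hx]
  simp

end

open PowerSeries in
/-- the integrals over cubes -/
noncomputable def Hk (k : ℕ) (a x : ℝ) : ℝ :=
  (-1) ^ k * ((x * (1 / a - EA a 1 x) * (1 / (1 - a) - EA (1 - a) 1 x)) ^ k * coeff (k - 1) (Lsa a x))

/-- the integrand -/
noncomputable def HI (k : ℕ) (a : ℝ) (p : (Fin k → ℝ) × (Fin k → ℝ)) : ℂ :=
  FW (wa a) k (fun j => om k ^ (j : ℕ)) p.1 * FW (wa (1 - a)) 0 (fun _ => 0) p.2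

/-- the normalized integral -/
noncomputable def NH (k : ℕ) (a : ℝ) (D : Set ((Fin k → ℝ) × (Fin k → ℝ))) : ℂ :=
  (-1) ^ k / k.factorial * ∫ p in D, HI k a p

/-- products of two cubes -/
def cub (k : ℕ) (s : Set ℝ) : Set ((Fin k → ℝ) × (Fin k → ℝ)) :=
  (Set.univ.pi fun _ => s) ×ˢ (Set.univ.pi fun _ => s)

lemma int_FW_zero {a : ℝ} (ha : 0 < a) {k : ℕ} {s : Set ℝ} (hs : s ⊆ Ioi 0) :
    ∫ t in Set.univ.pi (fun _ : Fin k => s), FW (wa a) 0 (fun _ => 0) t = (((∫ t in s, fa a 0 t) ^ k : ℝ) : ℂ) := by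
  rw [FW_integral (gl_int ha hs)]
  have h1 : ∀ F : PowerSeries ℂ, PowerSeries.rescale (0 : ℂ) F = PowerSeries.C (PowerSeries.constantCoeff F) := by
    intro F
    exact PowerSeries.rescale_zero_apply F
  simp only [h1, Finset.prod_const, Finset.card_univ, Fintype.card_fin, Nat.factorial_zero, Nat.cast_one, one_mul,
    PowerSeries.coeff_zero_eq_constantCoeff_apply, map_pow, PowerSeries.constantCoeff_C]
  rw [← PowerSeries.coeff_zero_eq_constantCoeff_apply, PowerSeries.coeff_mk]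
  have : ∫ t in s, gl (wa a) 0 t = ((∫ t in s, fa a 0 t : ℝ) : ℂ) := by
    rw [← integral_complex_ofReal]
    simp only [gl_wa]
  rw [this]
  simp

lemma HI_int {a : ℝ} (ha : 0 < a) (ha1 : a < 1) (k : ℕ) : IntegrableOn (HI k a) (cub k (Ioi 0)) := by
  have h1 := (FW_integrable (gl_int ha (subset_refl (Ioi (0 : ℝ)))) k (fun j : Fin k => om k ^ (j : ℕ)))
  have h2 := (FW_integrable (n := k) (gl_int (by linarith : 0 < 1 - a) (subset_refl (Ioi (0 : ℝ)))) 0 (fun _ => 0))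
  have h3 := Integrable.mul_prod h1 h2
  rw [Measure.prod_restrict] at h3
  exact h3

lemma NH_cub {a : ℝ} (ha : 0 < a) (ha1 : a < 1) {k : ℕ} (hk : 2 ≤ k) {s : Set ℝ} (hs : s ⊆ Ioi 0) {L : PowerSeries ℝ}
    (hL : PowerSeries.derivative ℝ (Fsa a s) = Fsa a s * L) :
    NH k a (cub k s) = (((-1) ^ k * (((∫ t in s, fa a 0 t) * (∫ t in s, fa (1 - a) 0 t)) ^ k *
      PowerSeries.coeff (k - 1) L) : ℝ) : ℂ) := by
  have h := setIntegral_prod_mul (μ := (volume : Measure (Fin k → ℝ))) (ν := (volume : Measure (Fin k → ℝ)))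
    (FW (wa a) k (fun j : Fin k => om k ^ (j : ℕ))) (FW (wa (1 - a)) 0 (fun _ : Fin k => (0 : ℂ)))
    (Set.univ.pi fun _ => s) (Set.univ.pi fun _ => s)
  rw [cube_root_a ha (by omega) hs hL, int_FW_zero (by linarith) hs] at h
  have h2 : PowerSeries.constantCoeff (Fsa a s) = ∫ t in s, fa a 0 t := by
    rw [← PowerSeries.coeff_zero_eq_constantCoeff_apply, Fsa, PowerSeries.coeff_mk]
    simp
  rw [h2] at h
  rw [NH, cub]
  have h3 : ∫ p in (Set.univ.pi fun _ => s) ×ˢ (Set.univ.pi fun _ => s), HI k a p =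
      ((k.factorial * ((∫ t in s, fa a 0 t) ^ k * (PowerSeries.coeff (k - 1)) L) : ℝ) : ℂ) *
        (((∫ t in s, fa (1 - a) 0 t) ^ k : ℝ) : ℂ) := by
    rw [← h, Measure.volume_eq_prod]
    rfl
  rw [h3]
  have h4 : (k.factorial : ℂ) ≠ 0 := by exact_mod_cast k.factorial_ne_zero
  push_cast
  field_simp
  rw [mul_pow]
  ring

lemma NH_full {a : ℝ} (ha : 0 < a) (ha1 : a < 1) {k : ℕ} (hk : 2 ≤ k) :
    NH k a (cub k (Ioi 0)) = (((Real.pi / Real.sin (Real.pi * a)) ^ k * zH k a : ℝ) : ℂ) := by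
  rw [NH_cub ha ha1 hk (subset_refl _) (deriv_full ha), coeff_PCa ha hk]
  have h1 : ∫ t in Ioi (0 : ℝ), fa a 0 t = Real.Gamma a := ma_zero ha
  have h2 : ∫ t in Ioi (0 : ℝ), fa (1 - a) 0 t = Real.Gamma (1 - a) := ma_zero (by linarith)
  rw [h1, h2, Real.Gamma_mul_Gamma_one_sub]
  congr 1
  have : ((-1 : ℝ) ^ k) * (-1) ^ k = 1 := by rw [← mul_pow]; norm_num
  linear_combination ((Real.pi / Real.sin (Real.pi * a)) ^ k * zH k a) * this

lemma NH_box {a : ℝ} (ha : 0 < a) (ha1 : a < 1) {k : ℕ} (hk : 2 ≤ k) {x : ℝ} (hx : 0 < x) :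
    NH k a (cub k (Ioo 0 x)) = (Hk k a x : ℂ) := by
  rw [NH_cub ha ha1 hk Ioo_subset_Ioi_self (deriv_Fsa_Ioo ha hx), coeff_C_add hk, gam_eq ha hx,
    gam_eq (by linarith) hx, gam, gam, Hk]
  have h1 : x ^ a * (1 / a - EA a 1 x) * (x ^ (1 - a) * (1 / (1 - a) - EA (1 - a) 1 x)) =
      x * (1 / a - EA a 1 x) * (1 / (1 - a) - EA (1 - a) 1 x) := by
    have h1 : x ^ a * x ^ (1 - a) = x := by
      rw [← Real.rpow_add hx]
      simp
    linear_combination ((1 / a - EA a 1 x) * (1 / (1 - a) - EA (1 - a) 1 x)) * h1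
  rw [h1]

lemma meas_cub (k : ℕ) {s : Set ℝ} (hs : MeasurableSet s) : MeasurableSet (cub k s) :=
  (MeasurableSet.univ_pi fun _ => hs).prod (MeasurableSet.univ_pi fun _ => hs)

lemma NH_diff {a : ℝ} (ha : 0 < a) (ha1 : a < 1) {k : ℕ} (x : ℝ) :
    NH k a (cub k (Ioi 0) \ cub k (Ioo 0 x)) = NH k a (cub k (Ioi 0)) - NH k a (cub k (Ioo 0 x)) := by
  rw [NH, NH, NH, ← mul_sub]
  congr 1
  exact setIntegral_sdiff (meas_cub k measurableSet_Ioo) (HI_int ha ha1 k)
    (Set.prod_mono (Set.pi_mono fun _ _ => Ioo_subset_Ioi_self) (Set.pi_mono fun _ _ => Ioo_subset_Ioi_self))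

end Pool.Agent.P8H73.PZ
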