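import Pool.Agent.P8H73.PZ.Fam
import Pool.Agent.P8H73.PZ.Hz
import Pool.Agent.P8H73.GT.Lio

/-!
# Algebraic independence over simultaneously Liouville fields
-/

set_option autoImplicit false

open MeasureTheory Set

namespace Pool.Agent.P8H73.PZ

open Pool.Agent.R352.T Pool.Agent.P8H73.GT
open Pool.Agent.R352.E (EE EE_zero_left)
open Pool.Agent.R352.Q (As Ls const_As deriv_As Zk)
open Pool.Agent.P8H10.MF

variable {F : Subfield ℝ}

lemma EA_EE (l : ℕ) (x : ℝ) : EA 0 l x = EE l x := by
  rw [EA, EE]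
  simp

lemma alg_mem (T : Set ℝ) {z : ℝ} (hz : IsAlgebraic ℤ z) : z ∈ clF F T :=
  mem_cl_iff.2 (IsAlgebraic.extendScalars (S := Algebra.adjoin F T) (RingHom.injective_int _) hz)

lemma neg_pow_mem (T : Set ℝ) (n : ℕ) : (-1 : ℝ) ^ n ∈ clF F T :=
  (clF F T).pow_mem ((clF F T).neg_mem (clF F T).one_mem) n

section

open PowerSeries

/-- the coefficients of a series from those of its logarithmic derivative -/
lemma coeff_mem {A L : ℝ⟦X⟧} (hAL : derivative ℝ A = A * L) {T : Set ℝ} (J : ℕ) (h0 : coeff 0 A ∈ clF F T)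
    (hL : ∀ j < J, coeff j L ∈ clF F T) : ∀ l ≤ J, coeff l A ∈ clF F T := by
  intro l
  induction l using Nat.strong_induction_on with
  | _ l ih =>
    intro hl
    cases l with
    | zero => exact h0
    | succ n =>
      have h2 := congrArg (coeff n) hAL
      rw [coeff_derivative, coeff_mul] at h2
      have h3 : coeff (n + 1) A = (∑ p ∈ Finset.HasAntidiagonal.antidiagonal n, coeff p.1 A *
          coeff p.2 L) / ((n : ℝ) + 1) := by
        rw [eq_div_iff (by positivity), h2]
      rw [h3]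
      refine (clF F T).div_mem ((clF F T).sum_mem fun p hp => ?_) ?_
      · have hp' := Finset.HasAntidiagonal.mem_antidiagonal.1 hp
        exact (clF F T).mul_mem (ih p.1 (by omega) (by omega)) (hL p.2 (by omega))
      · exact_mod_cast natCast_mem (clF F T) (n + 1)

lemma coeff_zero_L {A L : ℝ⟦X⟧} (hAL : derivative ℝ A = A * L) {T : Set ℝ} (h0 : coeff 0 A ∈ clF F T)
    (h1 : coeff 1 A ∈ clF F T) (hne : coeff 0 A ≠ 0) : coeff 0 L ∈ clF F T := by
  have h2 := congrArg (coeff 0) hAL
  have h3 : coeff 0 (A * L) = coeff 0 A * coeff 0 L := by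
    simp only [coeff_zero_eq_constantCoeff_apply, map_mul]
  rw [coeff_derivative, h3] at h2
  have h4 : coeff 0 L = coeff 1 A / coeff 0 A := by
    rw [eq_div_iff hne, mul_comm, ← h2]
    norm_num
  rw [h4]
  exact (clF F T).div_mem h1 h0

lemma mem_of_Zk {x : ℚ} (hx : 0 < x) {T : Set ℝ} (he : Real.exp 1 ∈ clF F T) (h1 : EE 1 x ∈ clF F T) {J : ℕ}
    (hZ : ∀ k, 2 ≤ k → k ≤ J → Zk k x ∈ clF F T) : ∀ l ≤ J, EE l x ∈ clF F T := by
  have hx' : (0 : ℝ) < x := by exact_mod_cast hx
  have ha : 1 - Real.exp (-(x : ℝ)) ∈ clF F T := by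
    refine (clF F T).sub_mem (clF F T).one_mem ?_
    have := exp_rat_mem he (-x)
    push_cast at this
    exact this
  have ha0 := (Pool.Agent.R352.Q.const_pos hx').ne'
  have hA0 : coeff 0 (As x) = 1 - Real.exp (-(x : ℝ)) := by rw [coeff_zero_eq_constantCoeff_apply, const_As]
  have hL : ∀ j < J, coeff j (Ls x) ∈ clF F T := by
    intro j hj
    cases j with
    | zero =>
      refine coeff_zero_L (deriv_As hx') (by rw [hA0]; exact ha) ?_ (by rw [hA0]; exact ha0)
      rw [As, coeff_mk]
      exact (clF F T).mul_mem (neg_pow_mem T _) h1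
    | succ j =>
      have h2 := hZ (j + 2) (by omega) (by omega)
      rw [Zk] at h2
      have h3 : j + 2 - 1 = j + 1 := by omega
      rw [h3] at h2
      have h4 : coeff (j + 1) (Ls x) = ((-1) ^ (j + 2) * ((1 - Real.exp (-(x : ℝ))) ^ (j + 2) * coeff (j + 1) (Ls x))) /
          ((-1) ^ (j + 2) * (1 - Real.exp (-(x : ℝ))) ^ (j + 2)) := by
        have : ((-1 : ℝ)) ^ (j + 2) ≠ 0 := pow_ne_zero _ (by norm_num)
        field_simp
      rw [h4]
      exact (clF F T).div_mem h2 ((clF F T).mul_mem (neg_pow_mem T _) ((clF F T).pow_mem ha _))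
  intro l hl
  have h2 := coeff_mem (deriv_As hx') J (by rw [hA0]; exact ha) hL l hl
  rw [As, coeff_mk] at h2
  have h3 : EE l x = (-1) ^ l * ((-1) ^ l * EE l x) := by
    rw [← mul_assoc, ← mul_pow]; norm_num
  rw [h3]
  exact (clF F T).mul_mem (neg_pow_mem T l) h2

lemma mem_of_Hk {a x : ℚ} (ha : 0 < a) (ha1 : a < 1) (hx : 0 < x) {T : Set ℝ} (h1 : EA a 1 x ∈ clF F T)
    (h1' : EA (1 - a) 1 x ∈ clF F T) {J : ℕ} (h2 : 1 ≤ J → EA a 2 x ∈ clF F T)
    (hZ : ∀ k, 2 ≤ k → k ≤ J → Hk k a x ∈ clF F T) : ∀ l ≤ J, EA a (l + 1) x ∈ clF F T := by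
  have hx' : (0 : ℝ) < x := by exact_mod_cast hx
  have ha' : (0 : ℝ) < a := by exact_mod_cast ha
  have ha1' : (a : ℝ) < 1 := by exact_mod_cast ha1
  have hra : (a : ℝ) ∈ clF F T := rat_mem T a
  have hA0 : coeff 0 (Asa a x) = 1 / a - EA a 1 x := by rw [coeff_zero_eq_constantCoeff_apply, const_Asa]
  have hc : (1 / (a : ℝ) - EA a 1 x) ∈ clF F T :=
    (clF F T).sub_mem ((clF F T).div_mem (clF F T).one_mem hra) h1
  have hc' : (1 / (1 - (a : ℝ)) - EA (1 - a) 1 x) ∈ clF F T :=
    (clF F T).sub_mem ((clF F T).div_mem (clF F T).one_mem ((clF F T).sub_mem (clF F T).one_mem hra)) h1'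
  have hp := const_pos ha' hx'
  have hp' := const_pos (by linarith : 0 < 1 - (a : ℝ)) hx'
  have hL : ∀ j < J, coeff j (Lsa a x) ∈ clF F T := by
    intro j hj
    cases j with
    | zero =>
      refine coeff_zero_L (deriv_Asa ha' hx') (by rw [hA0]; exact hc) ?_ (by rw [hA0]; exact hp.ne')
      rw [Asa, coeff_mk]
      exact (clF F T).mul_mem (neg_pow_mem T _) ((clF F T).sub_mem ((clF F T).div_mem (clF F T).one_mem
        ((clF F T).pow_mem hra _)) (h2 (by omega)))
    | succ j =>
      have h2 := hZ (j + 2) (by omega) (by omega)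
      rw [Hk] at h2
      have h3 : j + 2 - 1 = j + 1 := by omega
      rw [h3] at h2
      have hne : (x * (1 / a - EA a 1 x) * (1 / (1 - a) - EA (1 - a) 1 x) : ℝ) ≠ 0 := by positivity
      have hm : (x * (1 / a - EA a 1 x) * (1 / (1 - a) - EA (1 - a) 1 x) : ℝ) ∈ clF F T :=
        (clF F T).mul_mem ((clF F T).mul_mem (rat_mem T x) hc) hc'
      generalize (x * (1 / a - EA a 1 x) * (1 / (1 - a) - EA (1 - a) 1 x) : ℝ) = z at h2 hne hm
      have h4 : coeff (j + 1) (Lsa a x) = ((-1) ^ (j + 2) * (z ^ (j + 2) * coeff (j + 1) (Lsa a x))) /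
          ((-1) ^ (j + 2) * z ^ (j + 2)) := by
        have : ((-1 : ℝ)) ^ (j + 2) ≠ 0 := pow_ne_zero _ (by norm_num)
        field_simp
      rw [h4]
      exact (clF F T).div_mem h2 ((clF F T).mul_mem (neg_pow_mem T _) ((clF F T).pow_mem hm _))
  intro l hl
  have h2 := coeff_mem (deriv_Asa ha' hx') J (by rw [hA0]; exact hc) hL l hl
  rw [Asa, coeff_mk] at h2
  have h3 : EA a (l + 1) x = 1 / (a : ℝ) ^ (l + 1) - (-1) ^ l * ((-1) ^ l * (1 / (a : ℝ) ^ (l + 1) - EA a (l + 1) x)) := by
    rw [← mul_assoc, ← mul_pow]; norm_num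
  rw [h3]
  exact (clF F T).sub_mem ((clF F T).div_mem (clF F T).one_mem ((clF F T).pow_mem hra _))
    ((clF F T).mul_mem (neg_pow_mem T l) h2)

end

/-- the spanning family -/
noncomputable def W (l : ℕ) (a x : ℚ) : ℝ :=
  if a = 0 then (if l = 0 then EE 1 x else Zk (l + 1) x)
  else if l = 0 then (if a ≤ 1 / 2 then Ct a x else EA a 1 x)
  else if l = 1 then EA a 2 x
  else Hk l a x

theorem AI_W (hF : Pool.Agent.Q163.LE.SimLiouville F) (J : ℕ) {ι : Type} [Fintype ι] (a x : ι → ℚ)
    (hinj : ∀ i i', a i = a i' → x i = x i' → i = i')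
    (ha0 : ∀ i, 0 ≤ a i) (ha1 : ∀ i, a i < 1) (hpos : ∀ i, 0 < x i) (σ : ι → ι)
    (hσ : ∀ i, 0 < a i → a (σ i) = 1 - a i) (hσx : ∀ i, x (σ i) = x i) :
    AlgebraicIndependent F (fun o : Option (Fin J × ι) => o.elim (Real.exp 1) (fun p => W p.1 (a p.2) (x p.2))) := by
  refine indep_of_span (AI_E hF J a x hinj ha0 ha1 hpos) (fun o => ?_) le_rfl
  obtain ⟨T, hT⟩ : ∃ T : Set ℝ, T = range (fun o : Option (Fin J × ι) =>
    o.elim (Real.exp 1) (fun p => W p.1 (a p.2) (x p.2))) := ⟨_, rfl⟩
  rw [← hT]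
  have he : Real.exp 1 ∈ clF F T := by
    rw [hT]
    exact subset_clF _ ⟨none, rfl⟩
  have hW : ∀ (l : ℕ) (i : ι), l < J → W l (a i) (x i) ∈ clF F T := by
    intro l i hl
    rw [hT]
    exact subset_clF _ ⟨some (⟨l, hl⟩, i), rfl⟩
  cases o with
  | none => exact he
  | some p =>
    obtain ⟨l, i⟩ := p
    have hJ : 0 < J := by have := l.2; omega
    show EA (a i) (l + 1) (x i) ∈ clF F T
    rcases (ha0 i).eq_or_lt with h0 | h0
    · -- `a = 0`
      have h1 := hW 0 i hJ
      rw [W, if_pos h0.symm, if_pos rfl] at h1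
      rw [← h0, Rat.cast_zero, EA_EE]
      refine mem_of_Zk (hpos i) he h1 (J := J) (fun k hk hk' => ?_) (l + 1) (by omega)
      have h2 := hW (k - 1) i (by omega)
      rw [W, if_pos h0.symm, if_neg (by omega), Nat.sub_add_cancel (by omega)] at h2
      exact h2
    · have key : ∀ j : ι, 0 < a j → 1 / 2 < a j → EA (a j) 1 (x j) ∈ clF F T := by
        intro j hj hj2
        have h1 := hW 0 j hJ
        rw [W, if_neg hj.ne', if_pos rfl, if_neg (not_le.2 hj2)] at h1
        exact h1
      have key2 : ∀ j : ι, 0 < a j → EA (a j) 1 (x j) ∈ clF F T := by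
        intro j hj
        rcases lt_or_ge (1 / 2) (a j) with hj2 | hj2
        · exact key j hj hj2
        · have h1 := hW 0 j hJ
          rw [W, if_neg hj.ne', if_pos rfl, if_pos hj2] at h1
          have haj : (0 : ℝ) < a j := by exact_mod_cast hj
          have haj1 : (a j : ℝ) < 1 := by exact_mod_cast ha1 j
          have hxj : (0 : ℝ) < x j := by exact_mod_cast hpos j
          rw [Ct_eq haj haj1 hxj] at h1
          have hs : 0 < Real.sin (Real.pi * a j) := by
            refine Real.sin_pos_of_pos_of_lt_pi (by positivity) ?_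
            nlinarith [Real.pi_pos]
          have hsm : Real.sin (Real.pi * a j) ∈ clF F T := alg_mem T (sin_alg (a j))
          have hp := const_pos haj hxj
          have hp' := const_pos (by linarith : 0 < 1 - (a j : ℝ)) hxj
          have hra : (a j : ℝ) ∈ clF F T := rat_mem T _
          have hrx : (x j : ℝ) ∈ clF F T := rat_mem T _
          have fin : (1 / (a j : ℝ) - EA (a j) 1 (x j)) ∈ clF F T := by
            rcases hj2.eq_or_lt with hj3 | hj3
            · -- `a = 1/2`
              refine of_pow (n := 2) two_ne_zero ?_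
              have e1 : (1 : ℝ) - a j = a j := by
                rw [hj3]
                norm_num
              rw [e1] at h1
              have e2 : (1 / (a j : ℝ) - EA (a j) 1 (x j)) ^ 2 = Real.sin (Real.pi * a j) * ((x j) *
                  (1 / (a j) - EA (a j) 1 (x j)) * (1 / (a j) - EA (a j) 1 (x j))) /
                  (Real.sin (Real.pi * a j) * x j) := by
                rw [eq_div_iff (mul_ne_zero hs.ne' hxj.ne')]
                ring
              rw [e2]
              exact (clF F T).div_mem h1 ((clF F T).mul_mem hsm hrx)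
            · have h3 := key (σ j) (by rw [hσ j hj]; linarith) (by rw [hσ j hj]; linarith)
              rw [hσ j hj, hσx j] at h3
              push_cast at h3
              have hm : (1 / (1 - (a j : ℝ)) - EA (1 - a j) 1 (x j)) ∈ clF F T :=
                (clF F T).sub_mem ((clF F T).div_mem (clF F T).one_mem ((clF F T).sub_mem (clF F T).one_mem hra)) h3
              have e2 : (1 / (a j : ℝ) - EA (a j) 1 (x j)) = Real.sin (Real.pi * a j) * ((x j) *
                  (1 / (a j) - EA (a j) 1 (x j)) * (1 / (1 - a j) - EA (1 - a j) 1 (x j))) /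
                  (Real.sin (Real.pi * a j) * x j * (1 / (1 - a j) - EA (1 - a j) 1 (x j))) := by
                rw [eq_div_iff (mul_ne_zero (mul_ne_zero hs.ne' hxj.ne') hp'.ne')]
                ring
              rw [e2]
              exact (clF F T).div_mem h1 ((clF F T).mul_mem ((clF F T).mul_mem hsm hrx) hm)
          have e3 : EA (a j) 1 (x j) = 1 / (a j : ℝ) - (1 / (a j : ℝ) - EA (a j) 1 (x j)) := by ring
          rw [e3]
          exact (clF F T).sub_mem ((clF F T).div_mem (clF F T).one_mem hra) fin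
      have h3 := key2 (σ i) (by rw [hσ i h0]; linarith [ha1 i])
      rw [hσ i h0, hσx i] at h3
      push_cast at h3
      refine mem_of_Hk h0 (ha1 i) (hpos i) (key2 i h0) h3 (J := J - 1) (fun h => ?_) (fun k hk hk' => ?_) l (by omega)
      · have h4 := hW 1 i (by omega)
        rw [W, if_neg h0.ne', if_neg one_ne_zero, if_pos rfl] at h4
        exact h4
      · have h4 := hW k i (by omega)
        rw [W, if_neg h0.ne', if_neg (by omega), if_neg (by omega)] at h4
        exact h4

end Pool.Agent.P8H73.PZ
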