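import Pool.Agent.P8H73.PZ.Lio

/-!
# The numbers `π`, `ζ(k)`, `(π / sin πa)^k ζ(k,a)` and their complementary integrals
-/

set_option autoImplicit false

open MeasureTheory Set

namespace Pool.Agent.P8H73.PZ

open Pool.Agent.P8H73.GT
open Pool.Agent.R352.Q (Zk Rk)
open Pool.Agent.R352.E (zt)
open Pool.Agent.P8H10.MF

variable {F : Subfield ℝ}

/-- names: `(a,x)`, `(k,x)`, `(k,a,x)` -/
abbrev Nm : Type := (ℚ × ℚ) ⊕ ((ℕ × ℚ) ⊕ (ℕ × ℚ × ℚ))

/-- the admissible names -/
def Val : Nm → Prop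
  | .inl p => 0 < p.1 ∧ p.1 ≤ 1 / 2 ∧ 0 < p.2
  | .inr (.inl p) => 2 ≤ p.1 ∧ 0 < p.2
  | .inr (.inr p) => 2 ≤ p.1 ∧ 0 < p.2.1 ∧ p.2.1 < 1 ∧ 0 < p.2.2

/-- the integrals over cubes -/
noncomputable def cN : Nm → ℝ
  | .inl p => Ct p.1 p.2
  | .inr (.inl p) => Zk p.1 p.2
  | .inr (.inr p) => Hk p.1 p.2.1 p.2.2

/-- the full values -/
noncomputable def vN : Nm → ℝ
  | .inl _ => Real.pi
  | .inr (.inl p) => zt p.1
  | .inr (.inr p) => (Real.pi / Real.sin (Real.pi * p.2.1)) ^ p.1 * zH p.1 p.2.1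

/-- the complementary integrals -/
noncomputable def rN (n : Nm) : ℝ := vN n - cN n

/-- the index of a name -/
def idx : Nm → ℕ × ℚ × ℚ
  | .inl p => (0, p.1, p.2)
  | .inr (.inl p) => (p.1 - 1, 0, p.2)
  | .inr (.inr p) => p

lemma cN_eq {n : Nm} (hn : Val n) : cN n = W (idx n).1 (idx n).2.1 (idx n).2.2 := by
  rcases n with p | p | p
  · obtain ⟨h1, h2, h3⟩ := hn
    show Ct p.1 p.2 = W 0 p.1 p.2
    rw [W, if_neg h1.ne', if_pos rfl, if_pos h2]
  · obtain ⟨h1, h2⟩ := hn
    show Zk p.1 p.2 = W (p.1 - 1) 0 p.2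
    rw [W, if_pos rfl, if_neg (by omega), Nat.sub_add_cancel (by omega)]
  · obtain ⟨h1, h2, h3, h4⟩ := hn
    show Hk p.1 p.2.1 p.2.2 = W p.1 p.2.1 p.2.2
    rw [W, if_neg h2.ne', if_neg (by omega), if_neg (by omega)]

lemma idx_inj {n m : Nm} (hn : Val n) (hm : Val m) (h : idx n = idx m) : n = m := by
  rcases n with ⟨a, x⟩ | ⟨k, x⟩ | ⟨k, a, x⟩ <;> rcases m with ⟨b, y⟩ | ⟨l, y⟩ | ⟨l, b, y⟩ <;>
    simp only [idx, Prod.mk.injEq, Val] at h hn hm
  · rw [h.2.1, h.2.2]
  · omega
  · omega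
  · omega
  · obtain ⟨h1, -, h3⟩ := h
    have : k = l := by omega
    rw [this, h3]
  · exact absurd h.2.1 (ne_of_lt hm.2.1)
  · omega
  · exact absurd h.2.1 (ne_of_gt hn.2.1)
  · rw [h.1, h.2.1, h.2.2]

lemma idx_ok {n : Nm} (hn : Val n) : 0 ≤ (idx n).2.1 ∧ (idx n).2.1 < 1 ∧ 0 < (idx n).2.2 := by
  rcases n with ⟨a, x⟩ | ⟨k, x⟩ | ⟨k, a, x⟩ <;> simp only [idx, Val] at hn ⊢
  · exact ⟨hn.1.le, by linarith, hn.2.2⟩
  · exact ⟨le_rfl, one_pos, hn.2⟩
  · exact ⟨hn.2.1.le, hn.2.2.1, hn.2.2.2⟩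

/-- the reflection -/
def rfl' (p : ℚ × ℚ) : ℚ × ℚ := (if p.1 = 0 then 0 else 1 - p.1, p.2)

lemma rfl'_rfl' {p : ℚ × ℚ} (hp : p.1 < 1) : rfl' (rfl' p) = p := by
  obtain ⟨a, x⟩ := p
  simp only [rfl']
  by_cases h : a = 0
  · rw [if_pos h, if_pos rfl, h]
  · rw [if_neg h, if_neg]
    · congr 1
      ring
    · intro h1
      simp only at hp
      linarith

lemma AI_names (hF : Pool.Agent.Q163.LE.SimLiouville F) (S : Finset Nm) (hS : ∀ n ∈ S, Val n) :
    AlgebraicIndependent F (fun o : Option S => o.elim (Real.exp 1) (fun n => cN n)) := by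
  classical
  let J : ℕ := S.sup (fun n => (idx n).1) + 1
  let Y0 : Finset (ℚ × ℚ) := S.image fun n => (idx n).2
  let Y : Finset (ℚ × ℚ) := Y0 ∪ Y0.image rfl'
  have hY0 : ∀ p ∈ Y0, 0 ≤ p.1 ∧ p.1 < 1 ∧ 0 < p.2 := by
    intro p hp
    obtain ⟨n, hn, rfl⟩ := Finset.mem_image.1 hp
    exact idx_ok (hS n hn)
  have hY : ∀ p ∈ Y, 0 ≤ p.1 ∧ p.1 < 1 ∧ 0 < p.2 := by
    intro p hp
    rcases Finset.mem_union.1 hp with h | h
    · exact hY0 p h
    · obtain ⟨p', h', rfl⟩ := Finset.mem_image.1 h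
      obtain ⟨h1, h2, h3⟩ := hY0 p' h'
      simp only [rfl']
      split_ifs with h0
      · exact ⟨le_rfl, one_pos, h3⟩
      · refine ⟨by linarith, ?_, h3⟩
        have : 0 < p'.1 := lt_of_le_of_ne h1 (Ne.symm h0)
        linarith
  have hYr : ∀ p ∈ Y, rfl' p ∈ Y := by
    intro p hp
    rcases Finset.mem_union.1 hp with h | h
    · exact Finset.mem_union_right _ (Finset.mem_image_of_mem _ h)
    · obtain ⟨p', h', rfl⟩ := Finset.mem_image.1 h
      rw [rfl'_rfl' (hY0 p' h').2.1]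
      exact Finset.mem_union_left _ h'
  have h := AI_W hF J (ι := Y) (fun i => i.1.1) (fun i => i.1.2)
    (fun i j h1 h2 => Subtype.ext (Prod.ext h1 h2)) (fun i => (hY i.1 i.2).1) (fun i => (hY i.1 i.2).2.1)
    (fun i => (hY i.1 i.2).2.2) (fun i => ⟨rfl' i.1, hYr i.1 i.2⟩) (fun i hi => by
      show (if i.1.1 = 0 then (0 : ℚ) else 1 - i.1.1) = 1 - i.1.1
      rw [if_neg hi.ne']) (fun i => rfl)
  have hJ : ∀ n : S, (idx n.1).1 < J := fun n =>
    Nat.lt_succ_of_le (Finset.le_sup (f := fun n => (idx n).1) n.2)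
  have hm : ∀ n : S, (idx n.1).2 ∈ Y := fun n => Finset.mem_union_left _ (Finset.mem_image_of_mem _ n.2)
  let f : Option S → Option (Fin J × Y) := Option.map fun n => (⟨(idx n.1).1, hJ n⟩, ⟨(idx n.1).2, hm n⟩)
  have hf : Function.Injective f := by
    refine Option.map_injective ?_
    intro n m hnm
    simp only [Prod.mk.injEq, Fin.mk.injEq, Subtype.mk.injEq] at hnm
    exact Subtype.ext (idx_inj (hS n.1 n.2) (hS m.1 m.2) (Prod.ext hnm.1 hnm.2))
  have h2 := h.comp f hf
  convert h2 using 1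
  funext o
  cases o with
  | none => rfl
  | some n => exact cN_eq (hS n.1 n.2)

/-- **Algebraic independence** of `e` and all integrals over cubes over `F` -/
theorem AI_all (hF : Pool.Agent.Q163.LE.SimLiouville F) : AlgebraicIndependent F (fun o : Option {n : Nm // Val n} =>
    o.elim (Real.exp 1) (fun n => cN n.1)) := by
  classical
  refine algebraicIndependent_of_finite_type fun t ht => ?_
  let s : Finset Nm := (ht.toFinset.biUnion fun o => o.elim ∅ (fun p => {p.1})).filter Val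
  have hs : ∀ p : {n : Nm // Val n}, some p ∈ t → p.1 ∈ s := by
    intro p hp
    refine Finset.mem_filter.2 ⟨Finset.mem_biUnion.2 ⟨some p, ht.mem_toFinset.2 hp, ?_⟩, p.2⟩
    simp
  have h := AI_names hF s (fun p hp => (Finset.mem_filter.1 hp).2)
  let f : t → Option s := fun o =>
    match o with
    | ⟨none, _⟩ => none
    | ⟨some p, hp⟩ => some ⟨p.1, hs p hp⟩
  have hf : Function.Injective f := by
    rintro ⟨o, ho⟩ ⟨o', ho'⟩ hoo
    cases o with
    | none =>
      cases o' with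
      | none => rfl
      | some p' => exact absurd hoo (by simp [f])
    | some p =>
      cases o' with
      | none => exact absurd hoo (by simp [f])
      | some p' =>
        simp only [f, Option.some.injEq, Subtype.mk.injEq] at hoo
        have : p = p' := Subtype.ext hoo
        subst this
        rfl
  have h2 := h.comp f hf
  convert h2 using 1
  ext ⟨o, ho⟩
  cases o with
  | none => rfl
  | some p => rfl

lemma cN_mem {n : Nm} {T : Set ℝ} (h1 : vN n ∈ clF F T) (h2 : rN n ∈ clF F T) : cN n ∈ clF F T := by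
  have : cN n = vN n - rN n := by rw [rN]; ring
  rw [this]
  exact (clF F T).sub_mem h1 h2

/-- a lower bound for the transcendence degree -/
theorem trdegN (hF : Pool.Agent.Q163.LE.SimLiouville F) {r : ℕ} (y : Fin r → ℝ) (S : Finset Nm)
    (hS : ∀ n ∈ S, Val n ∧ vN n ∈ clF F ({Real.exp 1} ∪ range y)) :
    ((S.card + 1 : ℕ) : Cardinal) ≤ Algebra.trdeg F (IntermediateField.adjoin F
      ({Real.exp 1} ∪ range y ∪ rN '' (S : Set Nm))) := by
  have h := AI_names hF S (fun n hn => (hS n hn).1)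
  have h2 := trdeg_ge h (A := {Real.exp 1} ∪ range y ∪ rN '' (S : Set Nm)) ?_
  · refine le_trans (le_of_eq ?_) h2
    simp
  · intro o
    have he : Real.exp 1 ∈ clF F ({Real.exp 1} ∪ range y ∪ rN '' (S : Set Nm)) :=
      subset_clF _ (Or.inl (Or.inl rfl))
    cases o with
    | none => exact he
    | some n =>
      exact cN_mem (clF_mono subset_union_left (hS n.1 n.2).2) (subset_clF _ (Or.inr ⟨n.1, n.2, rfl⟩))

/-- counting -/
theorem countN (hF : Pool.Agent.Q163.LE.SimLiouville F) {r : ℕ} (y : Fin r → ℝ) (t : Finset (Fin r ⊕ Nm))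
    (ht : ∀ i ∈ t, Sum.elim y rN i ∈ clF F {Real.exp 1})
    (ht' : ∀ n : Nm, Sum.inr n ∈ t → Val n ∧ vN n ∈ clF F ({Real.exp 1} ∪ range y)) : t.card ≤ r := by
  classical
  obtain ⟨S, hSm, hSm'⟩ : ∃ S : Finset Nm, (∀ n : Nm, Sum.inr n ∈ t → n ∈ S) ∧
      ∀ n ∈ S, Sum.inr n ∈ t := by
    refine ⟨t.biUnion fun i => Sum.elim (fun _ => ∅) (fun p => {p}) i,
      fun p hp => Finset.mem_biUnion.2 ⟨_, hp, by simp⟩, fun p hp => ?_⟩
    obtain ⟨i, hi, hxi⟩ := Finset.mem_biUnion.1 hp
    rcases i with i | q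
    · simp at hxi
    · simp only [Sum.elim_inr, Finset.mem_singleton] at hxi
      subst hxi
      exact hi
  have hAI := AI_names hF S (fun p hp => (ht' p (hSm' p hp)).1)
  obtain ⟨emb, hembd⟩ : ∃ emb : Fin r ⊕ S → Fin r ⊕ Nm, emb = Sum.map id Subtype.val := ⟨_, rfl⟩
  have hemb : Function.Injective emb := by
    rw [hembd]
    exact Function.Injective.sumMap Function.injective_id Subtype.val_injective
  obtain ⟨S', hS'd⟩ : ∃ S' : Finset (Fin r ⊕ S), S' = t.preimage emb hemb.injOn := ⟨_, rfl⟩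
  have hS'card : S'.card = t.card := by
    rw [hS'd, Finset.card_preimage, Finset.filter_true_of_mem]
    intro i hi
    rw [hembd]
    rcases i with i | p
    · exact ⟨Sum.inl i, rfl⟩
    · exact ⟨Sum.inr ⟨p, hSm p hi⟩, rfl⟩
  obtain ⟨yy, hyy⟩ : ∃ yy : Fin r ⊕ S → ℝ, yy = fun k => Sum.elim y rN (emb k) := ⟨_, rfl⟩
  have hh : ∀ k ∈ S', yy k ∈ clF F {Real.exp 1} := by
    intro k hk
    rw [hyy]
    rw [hS'd] at hk
    exact ht (emb k) (Finset.mem_preimage.1 hk)
  have h2 : ∀ o : Option S, (o.elim (Real.exp 1) (fun n => cN n.1) : ℝ) ∈ clF F ({Real.exp 1} ∪ range yy) := by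
    intro o
    cases o with
    | none => exact subset_clF _ (Or.inl rfl)
    | some p =>
      show cN p.1 ∈ _
      refine cN_mem (clF_mono ?_ (ht' p.1 (hSm' p.1 p.2)).2) (subset_clF _ (Or.inr ⟨Sum.inr p, ?_⟩))
      · refine union_subset_union_right _ ?_
        rintro _ ⟨i, rfl⟩
        exact ⟨Sum.inl i, by rw [hyy, hembd]; rfl⟩
      · rw [hyy, hembd]
        rfl
  have key := count_gen hAI S' hh h2
  rw [Fintype.card_option, Fintype.card_coe, Fintype.card_sum, Fintype.card_fin, Fintype.card_coe, hS'card] at key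
  omega

/-- dependent numbers: one of them can be omitted -/
theorem dependent {c : ℕ} (z : Fin (c + 1) → ℝ) (hdep : ¬ AlgebraicIndependent F (fun o : Option (Fin (c + 1)) =>
    o.elim (Real.exp 1) z)) (he : AlgebraicIndependent F (fun _ : Unit => Real.exp 1)) :
    ∃ y : Fin c → ℝ, ∀ i, z i ∈ clF F ({Real.exp 1} ∪ range y) := by
  classical
  obtain ⟨T, hT⟩ : ∃ T : Set ℝ, T = insert (Real.exp 1) (range z) := ⟨_, rfl⟩
  have hfin : T.Finite := by
    rw [hT]
    exact (finite_range z).insert _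
  have hrk : (Mt F).eRk T ≤ ((c + 1 : ℕ) : ℕ∞) := by
    by_contra hcon
    push Not at hcon
    have h1 : (((c + 2 : ℕ)) : ℕ∞) ≤ (Mt F).eRk T := by
      have := Order.add_one_le_of_lt hcon
      refine le_trans (le_of_eq ?_) this
      push_cast
      ring
    have hc2 : T.encard ≤ ((c + 2 : ℕ) : ℕ∞) := by
      rw [hT]
      refine (encard_insert_le _ _).trans ?_
      have h3 : (range z).encard ≤ ((c + 1 : ℕ) : ℕ∞) := by
        rw [← image_univ]
        refine (encard_image_le _ _).trans ?_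
        rw [encard_univ, ENat.card_eq_coe_fintype_card, Fintype.card_fin]
      calc (range z).encard + 1 ≤ ((c + 1 : ℕ) : ℕ∞) + 1 := by gcongr
        _ = ((c + 2 : ℕ) : ℕ∞) := by push_cast; ring
    have hind : (Mt F).Indep T := ((Mt F).isRkFinite_of_finite hfin).indep_of_encard_le_eRk (hc2.trans h1)
    have heq : T.encard = ((c + 2 : ℕ) : ℕ∞) := le_antisymm hc2 (h1.trans (Matroid.eRk_le_encard _ _))
    apply hdep
    have hrange : range (fun o : Option (Fin (c + 1)) => o.elim (Real.exp 1) z) = T := by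
      rw [hT]
      ext w
      constructor
      · rintro ⟨o, rfl⟩
        cases o with
        | none => exact Or.inl rfl
        | some i => exact Or.inr ⟨i, rfl⟩
      · rintro (rfl | ⟨i, rfl⟩)
        · exact ⟨none, rfl⟩
        · exact ⟨some i, rfl⟩
    have hinj : Function.Injective (fun o : Option (Fin (c + 1)) => o.elim (Real.exp 1) z) := by
      rw [← injOn_univ]
      refine Finite.injOn_of_encard_image_eq finite_univ ?_
      rw [image_univ, hrange, heq, encard_univ, ENat.card_eq_coe_fintype_card, Fintype.card_option, Fintype.card_fin]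
    refine (algebraicIndependent_subtype_range hinj).1 ?_
    rw [hrange]
    exact hind
  have hIe : (Mt F).Indep {Real.exp 1} := by
    have h1 : (Mt F).Indep (range fun _ : Unit => Real.exp 1) := he.to_subtype_range
    rw [range_const] at h1
    exact h1
  obtain ⟨I, hI, hsub⟩ := hIe.subset_isBasis_of_subset (X := T) (by rw [hT]; exact singleton_subset_iff.2 (Or.inl rfl))
    (subset_univ _)
  have hIc : (I \ {Real.exp 1}).encard ≤ (c : ℕ∞) := by
    have h1 : I.encard ≤ ((c + 1 : ℕ) : ℕ∞) := by rw [hI.encard_eq_eRk]; exact hrk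
    have h2 : (I \ {Real.exp 1}).encard + 1 = I.encard := encard_sdiff_singleton_add_one (hsub rfl)
    rw [← h2] at h1
    have h3 : (I \ {Real.exp 1}).encard + 1 ≤ (c : ℕ∞) + 1 := by
      refine h1.trans (le_of_eq ?_)
      push_cast
      rfl
    exact (ENat.add_le_add_iff_right (by simp)).1 h3
  have hfin2 : (I \ {Real.exp 1}).Finite := finite_of_encard_le_coe hIc
  obtain ⟨y, hy⟩ : ∃ y : Fin c → ℝ, (I \ {Real.exp 1}) ⊆ range y := by
    have h4 : (I \ {Real.exp 1}).ncard ≤ c := by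
      have := hfin2.cast_ncard_eq
      rw [← this] at hIc
      exact_mod_cast hIc
    rcases (I \ {Real.exp 1}).eq_empty_or_nonempty with h0 | ⟨w, hw⟩
    · exact ⟨fun _ => 0, by rw [h0]; exact empty_subset _⟩
    · have := hfin2.fintype
      have h5 : Fintype.card (I \ {Real.exp 1} : Set ℝ) ≤ Fintype.card (Fin c) := by
        rw [Fintype.card_fin, ← Nat.card_eq_fintype_card]
        exact h4
      obtain ⟨f⟩ := Function.Embedding.nonempty_of_card_le h5
      refine ⟨fun i => if h : ∃ v, f v = i then (h.choose : ℝ) else 0, fun v hv => ?_⟩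
      refine ⟨f ⟨v, hv⟩, ?_⟩
      have h6 : ∃ v', f v' = f ⟨v, hv⟩ := ⟨_, rfl⟩
      simp only [dif_pos h6]
      have := f.injective h6.choose_spec
      rw [this]
  refine ⟨y, fun i => ?_⟩
  have h7 : z i ∈ (Mt F).closure I := hI.subset_closure (by rw [hT]; exact Or.inr ⟨i, rfl⟩)
  refine clF_mono ?_ (mem_clF'.2 h7)
  intro v hv
  by_cases hve : v = Real.exp 1
  · exact Or.inl hve
  · exact Or.inr (hy ⟨hv, hve⟩)

/-- a lower bound for the transcendence degree, some numbers being omitted -/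
lemma trdeg_ge_add {ι : Type*} [Fintype ι] {x : ι → ℝ} (hx : AlgebraicIndependent F x) {A : Set ℝ} {r : ℕ}
    (y : Fin r → ℝ) (h : ∀ i, x i ∈ clF F (A ∪ range y)) :
    (Fintype.card ι : Cardinal) ≤ Algebra.trdeg F (IntermediateField.adjoin F A) + r := by
  obtain ⟨I, hI⟩ := (Mt F).exists_isBasis A (subset_univ _)
  have h1 := card_le hx h
  have h2 : (Mt F).eRk (A ∪ range y) ≤ I.encard + r := by
    refine ((Mt F).eRk_union_le_eRk_add_eRk _ _).trans ?_
    rw [hI.encard_eq_eRk]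
    refine add_le_add le_rfl ((Matroid.eRk_le_encard _ _).trans ?_)
    rw [← image_univ]
    refine (encard_image_le _ _).trans ?_
    rw [encard_univ, ENat.card_eq_coe_fintype_card, Fintype.card_fin]
  have h3 : ((Fintype.card ι - r : ℕ) : ℕ∞) ≤ I.encard := by
    have h4 := h1.trans h2
    rcases eq_or_ne I.encard ⊤ with h5 | h5
    · rw [h5]
      exact le_top
    · obtain ⟨m, hm⟩ := ENat.ne_top_iff_exists.1 h5
      rw [← hm] at h4 ⊢
      have h6 : Fintype.card ι ≤ m + r := by exact_mod_cast h4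
      have h7 : Fintype.card ι - r ≤ m := by omega
      exact_mod_cast h7
  obtain ⟨t, htI, htc⟩ := exists_subset_encard_eq h3
  have hfin : t.Finite := by
    rw [← encard_lt_top_iff, htc]
    exact ENat.natCast_lt_top _
  have hind : AlgebraicIndependent F (fun i : t => (i : ℝ)) := hI.indep.subset htI
  have htA : ∀ i : t, (i : ℝ) ∈ IntermediateField.adjoin F A := fun i =>
    IntermediateField.subset_adjoin F A (hI.subset (htI i.2))
  let f : t → IntermediateField.adjoin F A := fun i => ⟨i, htA i⟩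
  have hf : AlgebraicIndependent F f :=
    Pool.Agent.P8H10.MF.AlgebraicIndependent.of_aeval_aux (IntermediateField.adjoin F A) f hind
  have := hfin.fintype
  have h5 := hf.cardinalMk_le_trdeg
  have h6 : ((Fintype.card ι - r : ℕ) : ℕ∞) = ((Fintype.card t : ℕ) : ℕ∞) := by
    rw [← htc, ← ENat.card_eq_coe_fintype_card, Set.encard]
  have h7 : Fintype.card ι - r = Fintype.card t := by exact_mod_cast h6
  rw [Cardinal.mk_fintype, ← h7] at h5
  calc (Fintype.card ι : Cardinal) ≤ ((Fintype.card ι - r + r : ℕ) : Cardinal) := by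
        exact_mod_cast (by omega : Fintype.card ι ≤ Fintype.card ι - r + r)
    _ = ((Fintype.card ι - r : ℕ) : Cardinal) + r := by push_cast; rfl
    _ ≤ _ := by gcongr

theorem trdegN' (hF : Pool.Agent.Q163.LE.SimLiouville F) {r : ℕ} (y : Fin r → ℝ) (S : Finset Nm)
    (hS : ∀ n ∈ S, Val n ∧ vN n ∈ clF F ({Real.exp 1} ∪ range y)) :
    ((S.card + 1 : ℕ) : Cardinal) ≤ Algebra.trdeg F (IntermediateField.adjoin F
      ({Real.exp 1} ∪ rN '' (S : Set Nm))) + r := by
  have h := AI_names hF S (fun n hn => (hS n hn).1)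
  have h2 := trdeg_ge_add h (A := {Real.exp 1} ∪ rN '' (S : Set Nm)) y ?_
  · refine le_trans (le_of_eq ?_) h2
    simp
  · intro o
    have he : Real.exp 1 ∈ clF F (({Real.exp 1} ∪ rN '' (S : Set Nm)) ∪ range y) :=
      subset_clF _ (Or.inl (Or.inl rfl))
    cases o with
    | none => exact he
    | some n =>
      refine cN_mem (clF_mono ?_ (hS n.1 n.2).2) (subset_clF _ (Or.inl (Or.inr ⟨n.1, n.2, rfl⟩)))
      rintro v (hv | hv)
      · exact Or.inl (Or.inl hv)
      · exact Or.inr hv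

end Pool.Agent.P8H73.PZ
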